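import Pool.Agent.W425.ND.Fin0
import Pool.Agent.W782.ND.CN
import Pool.Agent.W240.ND.Exp
import Pool.Agent.W977.ND.Nak
import Pool.Agent.W933.ND.Alg
import Pool.Agent.W864.ND.Brk
import Pool.Agent.W340.ND.Rep1
import Pool.Agent.W398.ND.Rep2
import Pool.Agent.W494.ND.DESC
import Pool.Agent.W414.ND.K1
import Pool.Agent.W13.ND.K2
import Pool.Agent.W839.ND.K3
import Pool.Agent.W451.ND.K4
import Pool.Agent.W439.ND.KOU
import Pool.Agent.W402.ND.Spec
import Pool.Agent.W54.ND.V2E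

set_option autoImplicit false

/-! Project ND: all parts. -/

namespace Pool.Agent.W425.ND

theorem parts : Parts where
  cn := Pool.Agent.W782.ND.cn
  exp := Pool.Agent.W240.ND.taskEXP
  nak := Pool.Agent.W977.ND.nak
  alg := Pool.Agent.W933.ND.alg
  brk := Pool.Agent.W864.ND.taskBRK
  rep1 := Pool.Agent.W340.ND.rep1
  rep2 := Pool.Agent.W398.ND.rep2
  desc := Pool.Agent.W494.ND.taskDESC
  kou := Pool.Agent.W439.ND.kou Pool.Agent.W414.ND.k1 Pool.Agent.W13.ND.k2
    Pool.Agent.W839.ND.k3 Pool.Agent.W451.ND.k4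
  spec := Pool.Agent.W402.ND.taskSPEC
  v2e := Pool.Agent.W54.ND.v2e

end Pool.Agent.W425.ND
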