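import Pool.Agent.W425.ND.Fin1
import Pool.Agent.W422.GC.Tw

set_option autoImplicit false

/-! Project ND: the relation, and the twisted topological zeta functions. -/

namespace Pool.Agent.W425.ND

open MvPolynomial Pool.Agent.H628R4.TZ Pool.Agent.H628R4.TP Pool.Agent.W425.SM
  Pool.Agent.W425.SG Pool.Agent.W422.GC

variable {r N : ℕ}

open Polynomial in
/-- The relation with very general coefficients. -/
theorem rel_of (T : Parts) [NeZero r] (loc : Prop) (v : Fin r → Fin N → ℕ) (a : Fin r → ℂ)
    (hv : Function.Injective v) (hnd : Nondeg v a) (b : ℂ[X]) (hb : UnitEq loc (spa v a) b) :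
    ∃ (K : ℕ) (θ : Fin r → ℝ), LinearIndependent ℚ θ ∧
      Pool.Agent.W425.SV.RelV v θ loc (prodb b K) := by
  obtain ⟨K, hK⟩ := T.kou r N v a hnd
  obtain ⟨a', ha', hind⟩ := T.exp r a
  have hgen := T.nak r N v a K hK a' ha'
  have hrel := DefThm.def_of T.cn T.alg T.brk T.rep1 T.rep2 loc v (spa v a') a' rfl
    (by rw [spa_map v a' a ha']; exact spa_ne_zero hv a hnd) K hgen (prodb b K) (by
      intro m c hm _
      rw [spa_map v a' a ha']
      exact T.spec N loc (spa v a) b hb K m hm (monomial c 1))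
  obtain ⟨A, hA, hrel2⟩ := T.desc r N loc v a' (prodb b K) hind hrel
  obtain ⟨θ, hθ⟩ := exists_heights r
  exact ⟨K, θ, hθ, T.v2e r N (NeZero.ne r) loc v A (prodb b K) θ hθ hA hrel2⟩


open Polynomial in
/-- The functional equation of the global theorem, with the unit `1`. -/
theorem unitEq_of_global (f : MvPolynomial (Fin N) ℂ) (b : ℂ[X]) (hb : IsBFunction f b) :
    UnitEq False f b := by
  obtain ⟨P, hP⟩ := hb
  refine ⟨1, P, map_one _, fun _ => rfl, fun s => ?_⟩
  rw [mul_one]
  exact hP s

end Pool.Agent.W425.ND
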