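import Mathlib

set_option autoImplicit false

/-! Project ND: the weak monodromy conjecture for polynomials which are nondegenerate with respect
to their Newton polytope. Definitions. -/

namespace Pool.Agent.W425.ND

open MvPolynomial

/-- Sequences (indexed by `s`) of families of coefficients (indexed by exponents). -/
def Fn (N : ℕ) (R : Type) : Type := ℕ → (Fin N →₀ ℕ) → R

variable {N r : ℕ} {R : Type} [CommRing R]

noncomputable instance : AddCommGroup (Fn N R) :=
  inferInstanceAs (AddCommGroup (ℕ → (Fin N →₀ ℕ) → R))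

/-- the point `(s, e)` -/
def ev (s : ℕ) (e : Fin N →₀ ℕ) : Option (Fin N) → R
  | none => (s : R)
  | some i => ((e i : ℕ) : R)

/-- Polynomials in `s` (the variable `none`) and in the Euler operators `x_i ∂_i`
(the variables `some i`) act on the sequences. -/
noncomputable instance instFn : Module (MvPolynomial (Option (Fin N)) R) (Fn N R) where
  smul p u := fun s e => eval (ev s e) p * u s e
  one_smul u := by funext s e; show eval _ 1 * u s e = u s e; rw [map_one, one_mul]
  mul_smul p q u := by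
    funext s e
    show eval _ (p * q) * u s e = eval _ p * (eval _ q * u s e)
    rw [map_mul, mul_assoc]
  smul_zero p := by funext s e; show eval _ p * (0 : R) = 0; rw [mul_zero]
  smul_add p u w := by
    funext s e
    show eval _ p * (u s e + w s e) = eval _ p * u s e + eval _ p * w s e
    rw [mul_add]
  add_smul p q u := by
    funext s e
    show eval _ (p + q) * u s e = eval _ p * u s e + eval _ q * u s e
    rw [map_add, add_mul]
  zero_smul u := by funext s e; show eval _ 0 * u s e = 0; rw [map_zero, zero_mul]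

lemma smul_apply (p : MvPolynomial (Option (Fin N)) R) (u : Fn N R) (s : ℕ) (e : Fin N →₀ ℕ) :
    (p • u) s e = eval (ev s e) p * u s e := rfl

lemma add_apply (u w : Fn N R) (s : ℕ) (e : Fin N →₀ ℕ) : (u + w) s e = u s e + w s e := rfl

/-- translation of the exponents -/
noncomputable def tr (δ : Fin N → ℤ) (e : Fin N →₀ ℕ) : Fin N →₀ ℕ :=
  Finsupp.equivFunOnFinite.symm fun i => ((e i : ℤ) + δ i).toNat

/-- The operator `x ^ (δ⁻) ∂ ^ (δ⁺)`, which lowers the exponents by `δ`. -/
noncomputable def low (δ : Fin N → ℤ) (u : Fn N R) : Fn N R := fun s e =>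
  if ∀ i, 0 ≤ (e i : ℤ) + δ i then
    ((∏ i, ((e i : ℤ) + δ i).toNat.descFactorial (δ i).toNat : ℕ) : R) * u s (tr δ e) else 0

/-- the shift `s → s + L` -/
def sh (L : ℕ) (u : Fn N R) : Fn N R := fun s e => u (s + L) e

/-- the sequence `s ↦ p * s (s - 1) ... (s - m + 1) * f ^ (s - m)` -/
noncomputable def brk (f p : MvPolynomial (Fin N) R) (m : ℕ) : Fn N R := fun s e =>
  coeff e (p * ((s.descFactorial m : ℕ) : MvPolynomial (Fin N) R) * f ^ (s - m))

/-- translation by `δ` of the Euler operators -/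
noncomputable def trA (δ : Fin N → ℤ) :
    MvPolynomial (Option (Fin N)) R →ₐ[R] MvPolynomial (Option (Fin N)) R :=
  aeval fun o => Option.elim o (X none) fun i => X (some i) + C ((δ i : ℤ) : R)

/-- translation of `s` by `L` -/
noncomputable def shA (L : ℕ) :
    MvPolynomial (Option (Fin N)) R →ₐ[R] MvPolynomial (Option (Fin N)) R :=
  aeval fun o => Option.elim o (X none + C ((L : ℕ) : R)) fun i => X (some i)

/-- a polynomial in `s` -/
noncomputable def Bop [Algebra ℂ R] (B : Polynomial ℂ) : MvPolynomial (Option (Fin N)) R :=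
  Polynomial.aeval (X none) B

/-- `b(s) b(s-1) ... b(s-K)` -/
noncomputable def prodb (b : Polynomial ℂ) (K : ℕ) : Polynomial ℂ :=
  ∏ i ∈ Finset.range (K + 1), b.comp (Polynomial.X - Polynomial.C (i : ℂ))

/-- The exponent `c` lies in `m` times the convex hull of the `v_j`. -/
def Hul (v : Fin r → Fin N → ℕ) (m : ℕ) (c : Fin N →₀ ℕ) : Prop :=
  ∃ l : Fin r → ℝ, (∀ j, 0 ≤ l j) ∧ ∑ j, l j = (m : ℝ) ∧ ∀ i, ∑ j, l j * (v j i : ℝ) = (c i : ℝ)

/-- all exponents of `p` lie in `m` times the convex hull -/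
def SupH (v : Fin r → Fin N → ℕ) (m : ℕ) (p : MvPolynomial (Fin N) R) : Prop :=
  ∀ c, coeff c p ≠ 0 → Hul v m c

/-- `∑_j a_j x ^ (v_j)` -/
noncomputable def spa (v : Fin r → Fin N → ℕ) (a : Fin r → R) : MvPolynomial (Fin N) R :=
  ∑ j, C (a j) * ∏ i, X i ^ v j i

/-- From degree `K + 1` on, the monomials are generated by `f` and the `x_i ∂_i f`. -/
def Gen (v : Fin r → Fin N → ℕ) (f : MvPolynomial (Fin N) R) (K : ℕ) : Prop :=
  ∀ m, K ≤ m → ∀ c, Hul v (m + 1) c →
    ∃ (p0 : MvPolynomial (Fin N) R) (p : Fin N → MvPolynomial (Fin N) R),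
      SupH v m p0 ∧ (∀ i, SupH v m (p i)) ∧
      monomial c (1 : R) = p0 * f + ∑ i, p i * (X i * pderiv i f)

/-- the `v_j` on the face of the convex hull where the linear form `w` is minimal -/
def onFace (v : Fin r → Fin N → ℕ) (w : Fin N → ℝ) (j : Fin r) : Prop :=
  ∀ j', ∑ i, w i * (v j i : ℝ) ≤ ∑ i, w i * (v j' i : ℝ)

open Classical in
/-- The polynomial `f = ∑_j a_j x ^ (v_j)` is nondegenerate: for every face of the convex hull of
the `v_j`, the face polynomial and its derivatives have no common zero in the torus. -/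
def Nondeg (v : Fin r → Fin N → ℕ) (a : Fin r → ℂ) : Prop :=
  ∀ (w : Fin N → ℝ) (z : Fin N → ℂ), (∀ i, z i ≠ 0) →
    ¬ ((∑ j, if onFace v w j then a j * ∏ i, z i ^ v j i else 0) = 0 ∧
      ∀ i, (∑ j, if onFace v w j then a j * (v j i : ℂ) * ∏ i, z i ^ v j i else 0) = 0)

/-- The relation obtained by deformation. -/
def Rel [Algebra ℂ R] (loc : Prop) (v : Fin r → Fin N → ℕ) (f : MvPolynomial (Fin N) R) (A : R)
    (B : Polynomial ℂ) : Prop :=
  ∃ (L n n0 : ℕ) (δ : Fin n → Fin N → ℤ) (c : Fin n → Fin N →₀ ℕ) (m : Fin n → ℕ)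
    (P : Fin n → MvPolynomial (Option (Fin N)) R)
    (δ0 : Fin n0 → Fin N → ℤ) (c0 : Fin n0 → Fin N →₀ ℕ) (m0 : Fin n0 → ℕ)
    (P0 : Fin n0 → MvPolynomial (Option (Fin N)) R),
    (∀ k, Hul v (m k) (c k)) ∧ (∀ k, Hul v (m0 k) (c0 k)) ∧
    (∀ k, loc ∧ (∀ i, δ0 k i ≤ 0) ∧ δ0 k ≠ 0) ∧
    ∀ s, L ≤ s → ∀ e, algebraMap ℂ R (B.eval (s : ℂ)) * A * coeff e (f ^ s) =
      ∑ k, low (δ k) (P k • sh 1 (brk f (monomial (c k) 1) (m k))) s e +
      ∑ k, low (δ0 k) (P0 k • brk f (monomial (c0 k) 1) (m0 k)) s e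

/-- coefficientwise derivative -/
noncomputable def dC {σ k : Type} [Field k] (p : MvPolynomial σ (PowerSeries k)) :
    MvPolynomial σ (PowerSeries k) :=
  ∑ m ∈ p.support, monomial m (PowerSeries.derivative k (coeff m p))

/-- coefficientwise derivative of sequences -/
noncomputable def nab {k : Type} [Field k] (u : Fn N (PowerSeries k)) : Fn N (PowerSeries k) :=
  fun s e => PowerSeries.derivative k (u s e)

/-- `u(s) = q(s) f ^ (s - L)` -/
def IsRep (f : MvPolynomial (Fin N) R) (u : Fn N R) : Prop :=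
  ∃ (L : ℕ) (q : Polynomial (MvPolynomial (Fin N) R)) (U : ℕ → MvPolynomial (Fin N) R),
    (∀ s e, u s e = coeff e (U s)) ∧
    ∀ s : ℕ, f ^ L * U s = q.eval ((s : ℕ) : MvPolynomial (Fin N) R) * f ^ s

end Pool.Agent.W425.ND
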