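import Pool.Agent.W425.ND.Defs

set_option autoImplicit false

/-! Project ND: statements of the parts which only need Mathlib. -/

namespace Pool.Agent.W425.ND

open MvPolynomial

/-- Part CN: the connection lemma. -/
def TaskCN : Prop := ∀ (k σ M : Type) [Field k] [CharZero k] [Finite σ] [AddCommGroup M]
  [Module (MvPolynomial σ (PowerSeries k)) M] (nb : M →+ M),
  (∀ (p : MvPolynomial σ (PowerSeries k)) (x : M), nb (p • x) = p • nb x + dC p • x) →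
  ∀ (Z W Z0 : Submodule (MvPolynomial σ (PowerSeries k)) M), Z.FG → W ≤ Z → Z0 ≤ Z →
  (∀ x ∈ Z, nb x ∈ Z) → (∀ x ∈ W, nb x ∈ W) → (∀ x ∈ Z0, nb x ∈ Z0) →
  ∀ β : MvPolynomial σ k,
  (∀ x ∈ Z0, ∃ w ∈ W, ∃ z ∈ Z, (map PowerSeries.C β : MvPolynomial σ (PowerSeries k)) • x =
    w + (C PowerSeries.X : MvPolynomial σ (PowerSeries k)) • z) →
  ∀ x ∈ Z0, (map PowerSeries.C β : MvPolynomial σ (PowerSeries k)) • x ∈ W

/-- Part EXP: algebraically independent power series with given constant coefficients. -/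
def TaskEXP : Prop := ∀ (r : ℕ) (a : Fin r → ℂ), ∃ a' : Fin r → PowerSeries ℂ,
  (∀ j, PowerSeries.constantCoeff (a' j) = a j) ∧ AlgebraicIndependent ℂ a'

/-- Part NAK: generation over power series. -/
def TaskNAK : Prop := ∀ (r N : ℕ) (v : Fin r → Fin N → ℕ) (a : Fin r → ℂ) (K : ℕ),
  Gen v (spa v a) K → ∀ a' : Fin r → PowerSeries ℂ,
  (∀ j, PowerSeries.constantCoeff (a' j) = a j) → Gen v (spa v a') K

/-- Part ALG: commutation rules. -/
def TaskALG : Prop :=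
  (∀ (N : ℕ) (R : Type) [CommRing R] (δ : Fin N → ℤ) (u w : Fn N R),
    low δ (u + w) = low δ u + low δ w) ∧
  (∀ (N : ℕ) (R : Type) [CommRing R] (δ : Fin N → ℤ) (p : MvPolynomial (Option (Fin N)) R)
    (u : Fn N R), low δ (p • u) = trA δ p • low δ u) ∧
  (∀ (N : ℕ) (R : Type) [CommRing R] (δ : Fin N → ℤ) (p : MvPolynomial (Option (Fin N)) R)
    (u : Fn N R), p • low δ u = low δ (trA (fun i => -δ i) p • u)) ∧
  (∀ (N : ℕ) (R : Type) [CommRing R] (L : ℕ) (u w : Fn N R), sh L (u + w) = sh L u + sh L w) ∧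
  (∀ (N : ℕ) (R : Type) [CommRing R] (L : ℕ) (δ : Fin N → ℤ) (u : Fn N R),
    sh L (low δ u) = low δ (sh L u)) ∧
  (∀ (N : ℕ) (R : Type) [CommRing R] (L : ℕ) (p : MvPolynomial (Option (Fin N)) R) (u : Fn N R),
    sh L (p • u) = shA L p • sh L u) ∧
  (∀ (N : ℕ) (R : Type) [CommRing R] (L : ℕ) (p : MvPolynomial (Option (Fin N)) R) (u : Fn N R),
    ∃ q : MvPolynomial (Option (Fin N)) R, shA L q = p ∧ p • sh L u = sh L (q • u)) ∧
  (∀ (N : ℕ) (k : Type) [Field k] (u w : Fn N (PowerSeries k)), nab (u + w) = nab u + nab w) ∧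
  (∀ (N : ℕ) (k : Type) [Field k] (p : MvPolynomial (Option (Fin N)) (PowerSeries k))
    (u : Fn N (PowerSeries k)), nab (p • u) = p • nab u + dC p • u) ∧
  (∀ (N : ℕ) (k : Type) [Field k] (δ : Fin N → ℤ) (u : Fn N (PowerSeries k)),
    nab (low δ u) = low δ (nab u)) ∧
  (∀ (N : ℕ) (k : Type) [Field k] (L : ℕ) (u : Fn N (PowerSeries k)),
    nab (sh L u) = sh L (nab u))

/-- Part BRK: rules for the sequences `brk f p m`. -/
def TaskBRK : Prop :=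
  (∀ (N : ℕ) (R : Type) [CommRing R] (f p q : MvPolynomial (Fin N) R) (m : ℕ),
    brk f (p + q) m = brk f p m + brk f q m) ∧
  (∀ (N : ℕ) (R : Type) [CommRing R] (f p : MvPolynomial (Fin N) R) (t : R) (m : ℕ),
    brk f (C t * p) m = (C t : MvPolynomial (Option (Fin N)) R) • brk f p m) ∧
  (∀ (N : ℕ) (R : Type) [CommRing R] (f p : MvPolynomial (Fin N) R) (m : ℕ),
    brk f (p * f) (m + 1) =
      (X none - C ((m : ℕ) : R) : MvPolynomial (Option (Fin N)) R) • brk f p m) ∧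
  (∀ (N : ℕ) (R : Type) [CommRing R] (f p : MvPolynomial (Fin N) R) (i : Fin N) (m : ℕ),
    (X (some i) : MvPolynomial (Option (Fin N)) R) • brk f p m =
      brk f (X i * pderiv i p) m + brk f (p * (X i * pderiv i f)) (m + 1)) ∧
  (∀ (N : ℕ) (R : Type) [CommRing R] (f p : MvPolynomial (Fin N) R) (c : Fin N →₀ ℕ) (m : ℕ),
    low (fun i => -(c i : ℤ)) (brk f p m) = brk f (monomial c 1 * p) m) ∧
  (∀ (N : ℕ) (k : Type) [Field k] (f p : MvPolynomial (Fin N) (PowerSeries k)) (m : ℕ),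
    nab (brk f p m) = brk f (dC p) m + brk f (p * dC f) (m + 1))

/-- Part REP1: closure properties of `IsRep`. -/
def TaskREP1 : Prop := ∀ (N : ℕ) (R : Type) [CommRing R] (f : MvPolynomial (Fin N) R),
  (∀ (p : MvPolynomial (Fin N) R) (m : ℕ), IsRep f (brk f p m)) ∧
  (∀ u w : Fn N R, IsRep f u → IsRep f w → IsRep f (u + w)) ∧
  (∀ (P : MvPolynomial (Option (Fin N)) R) (u : Fn N R), IsRep f u → IsRep f (P • u)) ∧
  (∀ (δ : Fin N → ℤ) (u : Fn N R), IsRep f u → IsRep f (low δ u)) ∧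
  (∀ (L : ℕ) (u : Fn N R), IsRep f u → IsRep f (sh L u))

/-- Part REP2: division by the parameter. -/
def TaskREP2 : Prop := ∀ (N : ℕ) (k : Type) [Field k] [CharZero k]
  (f : MvPolynomial (Fin N) (PowerSeries k)), map PowerSeries.constantCoeff f ≠ 0 →
  ∀ u : Fn N (PowerSeries k), IsRep f u → (∀ s e, PowerSeries.constantCoeff (u s e) = 0) →
  ∃ z : Fn N (PowerSeries k), (∀ s e, u s e = PowerSeries.X * z s e) ∧
    ∃ (L n : ℕ) (c : Fin n → Fin N →₀ ℕ) (P : Fin n → MvPolynomial (Option (Fin N)) (PowerSeries k)),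
      sh L z = ∑ k, low (fun i => -(c k i : ℤ)) (P k • brk f 1 0)

/-- Part DESC: descent from power series to polynomials in the coefficients. -/
def TaskDESC : Prop := ∀ (r N : ℕ) (loc : Prop) (v : Fin r → Fin N → ℕ)
  (a' : Fin r → PowerSeries ℂ) (B : Polynomial ℂ), AlgebraicIndependent ℂ a' →
  Rel loc v (spa v a') 1 B →
  ∃ A : MvPolynomial (Fin r) ℂ, A ≠ 0 ∧ Rel loc v (spa v (X : Fin r → MvPolynomial (Fin r) ℂ)) A B

/-- Part K1 (Carathéodory). -/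
def TaskK1 : Prop := ∀ (r N : ℕ) (v : Fin r → Fin N → ℕ) (m : ℕ) (c : Fin N →₀ ℕ),
  Hul v m c → N + 1 ≤ m → ∃ (j : Fin r) (c' : Fin N →₀ ℕ),
    (∀ i, c i = v j i + c' i) ∧ Hul v (m - 1) c'

/-- Part K2: faces are exposed. -/
def TaskK2 : Prop := ∀ (r N : ℕ) (v : Fin r → Fin N → ℕ) (J : Finset (Fin r)), J.Nonempty →
  (∀ n n' : Fin r → ℕ, ∑ j, n j = ∑ j, n' j → (∀ i, ∑ j, n j * v j i = ∑ j, n' j * v j i) →
    (∀ j, n' j ≠ 0 → j ∈ J) → ∀ j, n j ≠ 0 → j ∈ J) →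
  ∃ w : Fin N → ℝ, ∀ j, onFace v w j ↔ j ∈ J

/-- the toric relations -/
def Toric {r N : ℕ} (v : Fin r → Fin N → ℕ) (c : Fin r → ℂ) : Prop :=
  ∀ n n' : Fin r → ℕ, ∑ j, n j = ∑ j, n' j → (∀ i, ∑ j, n j * v j i = ∑ j, n' j * v j i) →
    ∏ j, c j ^ n j = ∏ j, c j ^ n' j

/-- Part K3: points of the torus. -/
def TaskK3 : Prop := ∀ (r N : ℕ) (v : Fin r → Fin N → ℕ) (c : Fin r → ℂ), Toric v c →
  ∃ (z : Fin N → ℂ) (t : ℂ), t ≠ 0 ∧ (∀ i, z i ≠ 0) ∧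
    ∀ j, c j ≠ 0 → c j = t * ∏ i, z i ^ v j i

/-- Part K4: Nullstellensatz. -/
def TaskK4 : Prop := ∀ (r N : ℕ) (v : Fin r → Fin N → ℕ) (a : Fin r → ℂ),
  (∀ c : Fin r → ℂ, Toric v c → ∑ j, a j * c j = 0 → (∀ i, ∑ j, a j * (v j i : ℂ) * c j = 0) →
    c = 0) →
  ∃ n, 1 ≤ n ∧ ∀ α : Fin r → ℕ, ∑ j, α j = n →
    ∃ (p0 : MvPolynomial (Fin N) ℂ) (p : Fin N → MvPolynomial (Fin N) ℂ),
      SupH v (n - 1) p0 ∧ (∀ i, SupH v (n - 1) (p i)) ∧
      monomial (Finsupp.equivFunOnFinite.symm fun i => ∑ j, α j * v j i) (1 : ℂ) =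
        p0 * spa v a + ∑ i, p i * (X i * pderiv i (spa v a))

/-- Part KOU: the theorem of Kouchnirenko, from the parts K1 - K4. -/
def TaskKOU : Prop := TaskK1 → TaskK2 → TaskK3 → TaskK4 → ∀ (r N : ℕ) (v : Fin r → Fin N → ℕ)
  (a : Fin r → ℂ), Nondeg v a → ∃ K, Gen v (spa v a) K

end Pool.Agent.W425.ND
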