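import Pool.Agent.W425.ND.DefStep

set_option autoImplicit false

/-! Project ND, part DEF: the deformation theorem. -/

namespace Pool.Agent.W425.ND.DefThm

open MvPolynomial Pool.Agent.W425.ND

variable {N r : ℕ}

lemma eval_Bop {R : Type} [CommRing R] [Algebra ℂ R] (B : Polynomial ℂ) (s : ℕ)
    (e : Fin N →₀ ℕ) : eval (ev s e) (Bop B : MvPolynomial (Option (Fin N)) R) =
      algebraMap ℂ R (B.eval (s : ℂ)) := by
  unfold Bop
  induction B using Polynomial.induction_on' with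
  | add p q hp hq => simp only [map_add, hp, hq, Polynomial.eval_add]
  | monomial n a =>
    rw [Polynomial.aeval_monomial, map_mul, map_pow, eval_X, Polynomial.eval_monomial, map_mul,
      map_pow, map_natCast]
    congr 1
    show eval (ev s e) (C (algebraMap ℂ R a)) = _
    rw [eval_C]

theorem def_of (hCN : TaskCN) (hALG : TaskALG) (hBRK : TaskBRK) (hR1 : TaskREP1)
    (hR2 : TaskREP2) (loc : Prop) (v : Fin r → Fin N → ℕ) (f' : MvPolynomial (Fin N) RR)
    (a' : Fin r → RR) (hf' : f' = spa v a')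
    (hf : map PowerSeries.constantCoeff f' ≠ 0) (K : ℕ) (hgen : Gen v f' K) (B : Polynomial ℂ)
    (hspec : ∀ m c, m ≤ K → Hul v m c → SpecAt loc (map PowerSeries.constantCoeff f') B c m) :
    Rel loc v f' (1 : RR) B := by
  classical
  -- choose the data for every generator
  have hst := fun m c hm hc => step hALG hBRK hR1 hR2 loc v f' hf K B m c hm hc
    (hspec m c hm hc)
  set G := gens v f' K with hG
  have hst' : ∀ g : G, ∃ (D D0 : Set (Fin N → ℤ)) (L0 : ℕ), D.Finite ∧ D0.Finite ∧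
      (∀ δ ∈ D0, loc ∧ (∀ i, δ i ≤ 0) ∧ δ ≠ 0) ∧
      ∀ L, L0 ≤ L → ∃ E : Set (Fin N → ℤ), E.Finite ∧
        ∃ w ∈ SA ((D ×ˢ {L + 1}) ∪ (D0 ×ˢ {L})) G,
        ∃ z ∈ SA (E ×ˢ {0}) G,
        shA L (Bop B : BB N) • sh L (g : Fn N RR) = w + (C PowerSeries.X : BB N) • z := by
    rintro ⟨g, m, c, hm, hc, rfl⟩
    exact hst m c hm hc
  choose D D0 L0 hDf hD0f hD0 hL using hst'
  have hGf : Finite G := (gens_finite v f' K).to_subtype
  obtain ⟨L, hLmax⟩ : ∃ L, ∀ g, L0 g ≤ L := by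
    obtain ⟨L, hL⟩ := (Set.finite_range L0).bddAbove
    exact ⟨L, fun g => hL ⟨g, rfl⟩⟩
  choose E hEf hw using fun g => hL g L (hLmax g)
  set DD : Set (Fin N → ℤ) := ⋃ g, D g with hDD
  set DD0 : Set (Fin N → ℤ) := ⋃ g, D0 g with hDD0
  set EE : Set (Fin N → ℤ) := ⋃ g, E g with hEE
  have hDDf : DD.Finite := Set.finite_iUnion hDf
  have hDD0f : DD0.Finite := Set.finite_iUnion hD0f
  have hEEf : EE.Finite := Set.finite_iUnion hEf
  have hDD0' : ∀ δ ∈ DD0, loc ∧ (∀ i, δ i ≤ 0) ∧ δ ≠ 0 := by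
    intro δ hδ
    obtain ⟨g, hg⟩ := Set.mem_iUnion.1 hδ
    exact hD0 g δ hg
  set AW : Set ((Fin N → ℤ) × ℕ) := (DD ×ˢ {L + 1}) ∪ (DD0 ×ˢ {L}) with hAW
  set A0 : Set ((Fin N → ℤ) × ℕ) := {(0, L)} with hA0
  set AZ : Set ((Fin N → ℤ) × ℕ) := AW ∪ (A0 ∪ EE ×ˢ {0}) with hAZ
  have hAWf : AW.Finite := (hDDf.prod (Set.finite_singleton _)).union
    (hDD0f.prod (Set.finite_singleton _))
  have hAZf : AZ.Finite := hAWf.union ((Set.finite_singleton _).union
    (hEEf.prod (Set.finite_singleton _)))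
  have hnG : ∀ x ∈ G, nab x ∈ Submodule.span (BB N) G := by
    intro x hx
    subst hf'
    exact gens_nab hBRK v a' K hgen x hx
  have hnadd : ∀ u w : Fn N RR, nab (u + w) = nab u + nab w :=
    fun u w => hALG.2.2.2.2.2.2.2.1 N ℂ u w
  have hnsm : ∀ (p : BB N) (u : Fn N RR), nab (p • u) = p • nab u + dC p • u :=
    fun p u => hALG.2.2.2.2.2.2.2.2.1 N ℂ p u
  have hnzero : nab (0 : Fn N RR) = 0 := by
    have := hnadd 0 0
    rw [add_zero] at this
    exact left_eq_add.1 this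
  have hstab : ∀ A : Set ((Fin N → ℤ) × ℕ), ∀ x ∈ SA A G, nab x ∈ SA A G := fun A x hx =>
    Sp.nab_mem hnadd hnsm _ (SA.good hALG A) G hnG x hx
  have key := hCN ℂ (Option (Fin N)) (Fn N RR)
    { toFun := nab, map_zero' := hnzero, map_add' := hnadd } hnsm
    (SA AZ G) (SA AW G) (SA A0 G) (Sp.fg _ (hAZf.image _) G (gens_finite v f' K))
    (SA.mono Set.subset_union_left G)
    (SA.mono (Set.subset_union_left.trans Set.subset_union_right) G)
    (hstab AZ) (hstab AW) (hstab A0) (shA L (Bop B)) (by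
      intro x hx
      rw [map_shA, map_Bop]
      unfold SA Sp at hx
      induction hx using Submodule.span_induction with
      | mem x hx =>
        obtain ⟨_, ⟨a, ha, rfl⟩, g, hg, rfl⟩ := hx
        rw [hA0, Set.mem_singleton_iff] at ha
        subst ha
        obtain ⟨w, hwm, z, hzm, he⟩ := hw ⟨g, hg⟩
        refine ⟨w, SA.mono ?_ G hwm, z, SA.mono ?_ G hzm, ?_⟩
        · apply Set.union_subset_union
          · exact Set.prod_mono (Set.subset_iUnion D _) subset_rfl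
          · exact Set.prod_mono (Set.subset_iUnion D0 _) subset_rfl
        · refine Set.Subset.trans ?_ Set.subset_union_right
          refine Set.Subset.trans ?_ Set.subset_union_right
          exact Set.prod_mono (Set.subset_iUnion E _) subset_rfl
        · rw [← he]
          show _ • low 0 (sh L g) = _
          rw [low_zero]
      | zero => exact ⟨0, zero_mem _, 0, zero_mem _, by rw [smul_zero, smul_zero, add_zero]⟩
      | add x y _ _ hx hy =>
        obtain ⟨w, hw, z, hz, he⟩ := hx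
        obtain ⟨w', hw', z', hz', he'⟩ := hy
        refine ⟨w + w', add_mem hw hw', z + z', add_mem hz hz', ?_⟩
        rw [smul_add, he, he', smul_add]; abel
      | smul q x _ hx =>
        obtain ⟨w, hw, z, hz, he⟩ := hx
        refine ⟨q • w, Submodule.smul_mem _ _ hw, q • z, Submodule.smul_mem _ _ hz, ?_⟩
        rw [smul_comm, he, smul_add, smul_comm q])
  -- the final relation
  have hx0 : low 0 (sh L (brk f' 1 0)) ∈ SA A0 G :=
    SA.mem (a := ((0 : Fin N → ℤ), L)) rfl (one_mem v f' K)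
  have hfin := key _ hx0
  rw [map_shA, map_Bop, low_zero, hAW, SA.union] at hfin
  obtain ⟨w1, hw1, w2, hw2, he⟩ := Submodule.mem_sup.1 hfin
  obtain ⟨n, T, g, q, hT, hg, hr⟩ := Sp.rep _ (SA.good hALG _) G w1 hw1
  obtain ⟨n0, T0, g0, q0, hT0, hg0, hr0⟩ := Sp.rep _ (SA.good hALG _) G w2 hw2
  have hT' : ∀ k, ∃ δ : Fin N → ℤ, T k = op (δ, L + 1) := by
    intro k
    obtain ⟨⟨δ, l⟩, ⟨-, hl⟩, h⟩ := hT k
    have hl' : l = L + 1 := hl
    subst hl'
    exact ⟨δ, h.symm⟩
  have hT0' : ∀ k, ∃ δ : Fin N → ℤ, δ ∈ DD0 ∧ T0 k = op (δ, L) := by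
    intro k
    obtain ⟨⟨δ, l⟩, ⟨hδ, hl⟩, h⟩ := hT0 k
    have hl' : l = L := hl
    subst hl'
    exact ⟨δ, hδ, h.symm⟩
  choose δ hδ using hT'
  choose δ0 hδ0m hδ0 using hT0'
  choose m c hm hc hgc using hg
  choose m0 c0 hm0 hc0 hgc0 using hg0
  refine ⟨L, n, n0, δ, c, m, fun k => shA 1 (q k), δ0, c0, m0, q0, hc, hc0,
    fun k => hDD0' _ (hδ0m k), ?_⟩
  intro s hs e
  obtain ⟨t, rfl⟩ := Nat.exists_eq_add_of_le hs
  obtain ⟨a1, a2, a3, a4, a5, a6, -⟩ := id hALG
  have h1 : w1 = sh L (∑ k, low (δ k) (shA 1 (q k) • sh 1 (brk f' (monomial (c k) 1) (m k)))) := by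
    rw [hr, sh_sum hALG]
    refine Finset.sum_congr rfl fun k _ => ?_
    rw [hδ, hgc, a5, ← a6]
    show low (δ k) (sh (L + 1) _) = _
    rw [Nat.add_comm L 1, sh_add]
  have h2 : w2 = sh L (∑ k, low (δ0 k) (q0 k • brk f' (monomial (c0 k) 1) (m0 k))) := by
    rw [hr0, sh_sum hALG]
    refine Finset.sum_congr rfl fun k _ => ?_
    rw [hδ0, hgc0, a5]
    rfl
  rw [h1, h2, ← a4, ← a6] at he
  have h3 := congrFun (congrFun he t) e
  have h4 : sh L ((Bop B : BB N) • brk f' 1 0) t e =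
      algebraMap ℂ RR (B.eval ((L + t : ℕ) : ℂ)) * 1 * coeff e (f' ^ (L + t)) := by
    show eval (ev (t + L) e) (Bop B : BB N) * coeff e (1 * (((t + L).descFactorial 0 : ℕ) :
      MvPolynomial (Fin N) RR) * f' ^ (t + L - 0)) = _
    rw [eval_Bop, Nat.descFactorial_zero, Nat.cast_one, mul_one, one_mul, Nat.sub_zero, mul_one,
      Nat.add_comm]
  rw [← h4, ← h3, Nat.add_comm L t]
  show ((∑ k, low (δ k) (shA 1 (q k) • sh 1 (brk f' (monomial (c k) 1) (m k)))) +
    (∑ k, low (δ0 k) (q0 k • brk f' (monomial (c0 k) 1) (m0 k)))) (t + L) e = _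
  have hsum : ∀ (S : Finset (Fin n)) (u : Fin n → Fn N RR), (∑ k ∈ S, u k) (t + L) e =
      ∑ k ∈ S, u k (t + L) e := by
    intro S u
    induction S using Finset.induction_on with
    | empty => rfl
    | insert k S hk ih => rw [Finset.sum_insert hk, Finset.sum_insert hk, add_apply, ih]
  have hsum0 : ∀ (S : Finset (Fin n0)) (u : Fin n0 → Fn N RR), (∑ k ∈ S, u k) (t + L) e =
      ∑ k ∈ S, u k (t + L) e := by
    intro S u
    induction S using Finset.induction_on with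
    | empty => rfl
    | insert k S hk ih => rw [Finset.sum_insert hk, Finset.sum_insert hk, add_apply, ih]
  rw [add_apply, hsum, hsum0]

end Pool.Agent.W425.ND.DefThm
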