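import Pool.Agent.W425.ND.DefThm

set_option autoImplicit false

/-! Project ND, part DEF: the deformation theorem, one generator. -/

namespace Pool.Agent.W425.ND.DefThm

open MvPolynomial Pool.Agent.W425.ND

section thm

variable {N r : ℕ}

/-- the functional equation of the special member, for one generator -/
def SpecAt (loc : Prop) (f : MvPolynomial (Fin N) ℂ) (B : Polynomial ℂ) (c : Fin N →₀ ℕ)
    (m : ℕ) : Prop :=
  ∃ (n n0 : ℕ) (δ : Fin n → Fin N → ℤ) (P : Fin n → MvPolynomial (Option (Fin N)) ℂ)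
    (δ0 : Fin n0 → Fin N → ℤ) (α : Fin n0 → ℂ),
    (∀ k, loc ∧ (∀ i, δ0 k i ≤ 0) ∧ δ0 k ≠ 0) ∧
    (Bop B : MvPolynomial (Option (Fin N)) ℂ) • brk f (monomial c 1) m =
      ∑ k, low (δ k) (P k • sh 1 (brk f 1 0)) +
      ∑ k, low (δ0 k) ((C (α k) * Bop B : MvPolynomial (Option (Fin N)) ℂ) •
        brk f (monomial c 1) m)

lemma one_mem (v : Fin r → Fin N → ℕ) (f : MvPolynomial (Fin N) RR) (K : ℕ) :
    brk f 1 0 ∈ gens v f K := ⟨0, 0, Nat.zero_le _, Hul.zero, rfl⟩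

lemma smul_X_apply (z : Fn N RR) (s : ℕ) (e : Fin N →₀ ℕ) :
    ((C PowerSeries.X : BB N) • z) s e = PowerSeries.X * z s e := by
  rw [smul_apply, eval_C]

lemma step (hALG : TaskALG) (hBRK : TaskBRK) (hR1 : TaskREP1) (hR2 : TaskREP2)
    (loc : Prop) (v : Fin r → Fin N → ℕ) (f' : MvPolynomial (Fin N) RR)
    (hf : map PowerSeries.constantCoeff f' ≠ 0) (K : ℕ) (B : Polynomial ℂ) (m : ℕ)
    (c : Fin N →₀ ℕ) (hm : m ≤ K) (hc : Hul v m c)
    (hs : SpecAt loc (map PowerSeries.constantCoeff f') B c m) :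
    ∃ (D D0 : Set (Fin N → ℤ)) (L0 : ℕ), D.Finite ∧ D0.Finite ∧
      (∀ δ ∈ D0, loc ∧ (∀ i, δ i ≤ 0) ∧ δ ≠ 0) ∧
      ∀ L, L0 ≤ L → ∃ E : Set (Fin N → ℤ), E.Finite ∧
        ∃ w ∈ SA ((D ×ˢ {L + 1}) ∪ (D0 ×ˢ {L})) (gens v f' K),
        ∃ z ∈ SA (E ×ˢ {0}) (gens v f' K),
        shA L (Bop B : BB N) • sh L (brk f' (monomial c 1) m) =
          w + (C PowerSeries.X : BB N) • z := by
  classical
  obtain ⟨n, n0, δ, P, δ0, α, hδ0, heq⟩ := hs
  set x := brk f' (monomial c 1) m with hx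
  have hxG : x ∈ gens v f' K := ⟨m, c, hm, hc, rfl⟩
  set P' : Fin n → BB N := fun k => map PowerSeries.C (P k) with hP'
  set Q : Fin n0 → BB N := fun k => map PowerSeries.C (C (α k) * Bop B) with hQ
  set S1 : Fn N RR := ∑ k, low (δ k) (P' k • sh 1 (brk f' 1 0)) with hS1
  set S2 : Fn N RR := ∑ k, low (δ0 k) (Q k • x) with hS2
  set w : Fn N RR := (Bop B : BB N) • x + (-1 : BB N) • (S1 + S2) with hw
  -- representations
  obtain ⟨r1, r2, r3, r4, r5⟩ := hR1 N RR f'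
  have hwrep : IsRep f' w := by
    refine r2 _ _ (r3 _ _ (r1 _ _)) (r3 _ _ (r2 _ _ ?_ ?_))
    · exact isRep_sum hR1 f' _ _ fun k => r4 _ _ (r3 _ _ (r5 _ _ (r1 _ _)))
    · exact isRep_sum hR1 f' _ _ fun k => r4 _ _ (r3 _ _ (r1 _ _))
  -- vanishing
  have hmono : map (PowerSeries.constantCoeff : RR →+* ℂ) (monomial c (1 : RR)) =
      (monomial c (1 : ℂ) : MvPolynomial (Fin N) ℂ) := by
    rw [map_monomial, map_one (PowerSeries.constantCoeff : RR →+* ℂ)]
  have hw0 : mp (PowerSeries.constantCoeff : RR →+* ℂ) w = 0 := by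
    rw [hw, mp_add, mp_smul, mp_smul, mp_add, hS1, hS2, mp_sum, mp_sum, ← map_Bop, map_cc, hx,
      mp_brk, hmono, heq]
    have e1 : ∀ k, mp (PowerSeries.constantCoeff : RR →+* ℂ)
        (low (δ k) (P' k • sh 1 (brk f' 1 0))) =
        low (δ k) (P k • sh 1 (brk (map PowerSeries.constantCoeff f') 1 0)) := by
      intro k
      rw [mp_low, mp_smul, hP', map_cc, mp_sh, mp_brk,
        map_one (map (PowerSeries.constantCoeff : RR →+* ℂ))]
    have e2 : ∀ k, mp (PowerSeries.constantCoeff : RR →+* ℂ)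
        (low (δ0 k) (Q k • brk f' (monomial c 1) m)) =
        low (δ0 k) ((C (α k) * Bop B : MvPolynomial (Option (Fin N)) ℂ) •
          brk (map PowerSeries.constantCoeff f') (monomial c 1) m) := by
      intro k
      rw [mp_low, mp_smul, hQ, map_cc, mp_brk, hmono]
    simp only [e1, e2]
    rw [map_neg, map_one (map (PowerSeries.constantCoeff : RR →+* ℂ)), neg_smul, one_smul,
      add_neg_cancel]
  obtain ⟨z, hz, L0, n', c', P'', hsh⟩ := hR2 N ℂ f' hf w hwrep fun s e =>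
    congrFun (congrFun hw0 s) e
  have hz' : w = (C PowerSeries.X : BB N) • z := by
    funext s e
    rw [smul_X_apply, hz]
  refine ⟨Set.range δ, Set.range δ0, L0, Set.finite_range _, Set.finite_range _, ?_, ?_⟩
  · rintro _ ⟨k, rfl⟩
    exact hδ0 k
  · intro L hL
    obtain ⟨j, rfl⟩ := Nat.exists_eq_add_of_le hL
    set E : Set (Fin N → ℤ) := ⋃ k : Fin n', (fun c : Fin N →₀ ℕ => (fun i => -(c i : ℤ))) ''
      ((monomial (c' k) 1 * f' ^ j : MvPolynomial (Fin N) RR).support : Set (Fin N →₀ ℕ)) with hE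
    refine ⟨E, ?_, sh (L0 + j) (S1 + S2), ?_, sh (L0 + j) z, ?_, ?_⟩
    · exact Set.finite_iUnion fun k => (Finset.finite_toSet _).image _
    · obtain ⟨a1, a2, a3, a4, a5, a6, -⟩ := id hALG
      rw [a4, hS1, hS2, sh_sum hALG, sh_sum hALG, SA.union]
      refine Submodule.add_mem_sup (sum_mem fun k _ => ?_) (sum_mem fun k _ => ?_)
      · rw [a5, a6, a2]
        apply Submodule.smul_mem
        exact SA.mem (a := (δ k, L0 + j + 1)) ⟨⟨k, rfl⟩, rfl⟩ (one_mem v f' K)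
      · rw [a5, a6, a2]
        apply Submodule.smul_mem
        exact SA.mem (a := (δ0 k, L0 + j)) ⟨⟨k, rfl⟩, rfl⟩ hxG
    · obtain ⟨a1, a2, a3, a4, a5, a6, -⟩ := id hALG
      rw [sh_add, hsh, sh_sum hALG]
      refine sum_mem fun k _ => ?_
      rw [a5, a6, a2, sh_brk]
      apply Submodule.smul_mem
      rw [hBRK.2.2.2.2.1]
      refine SA.mono ?_ _ (brk_zero_mem hBRK v f' K _)
      rintro _ ⟨c'', hc'', rfl⟩
      exact ⟨Set.mem_iUnion.2 ⟨k, c'', hc'', rfl⟩, rfl⟩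
    · obtain ⟨a1, a2, a3, a4, a5, a6, -⟩ := id hALG
      have h1 : (Bop B : BB N) • x = (S1 + S2) + (C PowerSeries.X : BB N) • z := by
        rw [← hz', hw, neg_smul, one_smul]; abel
      rw [← a6, h1, a4]
      congr 1
      funext s e
      rw [smul_X_apply]
      show ((C PowerSeries.X : BB N) • z) (s + (L0 + j)) e = _
      rw [smul_X_apply]
      rfl

end thm

end Pool.Agent.W425.ND.DefThm
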