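import Pool.Agent.W425.ND.Stm

set_option autoImplicit false

/-! Project ND, part DEF: the deformation theorem. -/

namespace Pool.Agent.W425.ND.DefThm

open MvPolynomial Pool.Agent.W425.ND

section base

variable {N : ℕ} {R S : Type} [CommRing R] [CommRing S]

/-- base change -/
def mp (φ : R →+* S) (u : Fn N R) : Fn N S := fun s e => φ (u s e)

lemma mp_add (φ : R →+* S) (u w : Fn N R) : mp φ (u + w) = mp φ u + mp φ w := by
  funext s e
  show φ (u s e + w s e) = φ (u s e) + φ (w s e)
  rw [map_add]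

lemma ev_map (φ : R →+* S) (s : ℕ) (e : Fin N →₀ ℕ) (o : Option (Fin N)) :
    φ (ev s e o) = ev s e o := by
  cases o <;> simp [ev]

lemma mp_smul (φ : R →+* S) (p : MvPolynomial (Option (Fin N)) R) (u : Fn N R) :
    mp φ (p • u) = (map φ p) • mp φ u := by
  funext s e
  show φ (eval (ev s e) p * u s e) = eval (ev s e) (map φ p) * φ (u s e)
  rw [map_mul, eval_map]
  congr 1
  have : (ev s e : Option (Fin N) → S) = φ ∘ (ev s e) := by
    funext o
    simp [ev_map]
  rw [this, ← MvPolynomial.eval₂_id, MvPolynomial.hom_eval₂, RingHom.comp_id]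
  rfl

lemma mp_low (φ : R →+* S) (δ : Fin N → ℤ) (u : Fn N R) :
    mp φ (low δ u) = low δ (mp φ u) := by
  funext s e
  unfold mp low
  split_ifs with h
  · rw [map_mul, map_natCast]
  · exact map_zero φ

lemma mp_sh (φ : R →+* S) (L : ℕ) (u : Fn N R) : mp φ (sh L u) = sh L (mp φ u) := rfl

lemma mp_brk (φ : R →+* S) (f p : MvPolynomial (Fin N) R) (m : ℕ) :
    mp φ (brk f p m) = brk (map φ f) (map φ p) m := by
  funext s e
  unfold mp brk
  rw [← coeff_map, map_mul, map_mul, map_natCast, map_pow]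

end base

section supp

variable {N r : ℕ} {R : Type} [CommRing R]

lemma Hul.add {v : Fin r → Fin N → ℕ} {m m' : ℕ} {c c' : Fin N →₀ ℕ} (h : Hul v m c)
    (h' : Hul v m' c') : Hul v (m + m') (c + c') := by
  obtain ⟨l, h1, h2, h3⟩ := h
  obtain ⟨l', h1', h2', h3'⟩ := h'
  refine ⟨fun j => l j + l' j, fun j => add_nonneg (h1 j) (h1' j), ?_, ?_⟩
  · rw [Finset.sum_add_distrib, h2, h2']; push_cast; ring
  · intro i
    simp only [add_mul, Finset.sum_add_distrib, h3, h3', Finsupp.add_apply]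
    push_cast; ring

lemma Hul.zero {v : Fin r → Fin N → ℕ} : Hul v 0 0 :=
  ⟨fun _ => 0, fun _ => le_rfl, by simp, by simp⟩

lemma supH_mul {v : Fin r → Fin N → ℕ} {m m' : ℕ} {p q : MvPolynomial (Fin N) R}
    (h : SupH v m p) (h' : SupH v m' q) : SupH v (m + m') (p * q) := by
  classical
  intro c hc
  rw [coeff_mul] at hc
  obtain ⟨x, hx, hx2⟩ := Finset.exists_ne_zero_of_sum_ne_zero hc
  have h1 : coeff x.1 p ≠ 0 := fun h0 => hx2 (by rw [h0, zero_mul])
  have h2 : coeff x.2 q ≠ 0 := fun h0 => hx2 (by rw [h0, mul_zero])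
  have h3 := Hul.add (h _ h1) (h' _ h2)
  rwa [Finset.HasAntidiagonal.mem_antidiagonal.1 hx] at h3

lemma spa_coeff (v : Fin r → Fin N → ℕ) (a : Fin r → R) (c : Fin N →₀ ℕ) :
    coeff c (spa v a) = ∑ j, if c = Finsupp.equivFunOnFinite.symm (v j) then a j else 0 := by
  classical
  unfold spa
  rw [coeff_sum]
  refine Finset.sum_congr rfl fun j _ => ?_
  have : (∏ i, X i ^ v j i : MvPolynomial (Fin N) R) =
      monomial (Finsupp.equivFunOnFinite.symm (v j)) 1 := by
    rw [monomial_eq, C_1, one_mul, Finsupp.prod_fintype]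
    · simp
    · intro i; simp
  rw [this, coeff_C_mul, coeff_monomial]
  by_cases h : Finsupp.equivFunOnFinite.symm (v j) = c
  · rw [if_pos h, if_pos h.symm, mul_one]
  · rw [if_neg h, if_neg (fun h' => h h'.symm), mul_zero]

lemma hul_one (v : Fin r → Fin N → ℕ) (j : Fin r) :
    Hul v 1 (Finsupp.equivFunOnFinite.symm (v j)) := by
  classical
  refine ⟨fun j' => if j' = j then 1 else 0, fun j' => ?_, by simp, fun i => by simp⟩
  by_cases h : j' = j <;> simp [h]

lemma spa_supH (v : Fin r → Fin N → ℕ) (a : Fin r → R) : SupH v 1 (spa v a) := by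
  classical
  intro c hc
  rw [spa_coeff] at hc
  obtain ⟨j, -, hj⟩ := Finset.exists_ne_zero_of_sum_ne_zero hc
  have : c = Finsupp.equivFunOnFinite.symm (v j) := by
    by_contra h
    exact hj (if_neg h)
  rw [this]
  exact hul_one v j

lemma euler_coeff (i : Fin N) (p : MvPolynomial (Fin N) R) (c : Fin N →₀ ℕ) :
    coeff c (X i * pderiv i p) = (c i : R) * coeff c p := by
  classical
  induction p using MvPolynomial.induction_on' with
  | monomial u a =>
    rw [pderiv_monomial, coeff_X_mul']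
    by_cases h : i ∈ c.support
    · rw [if_pos h, coeff_monomial, coeff_monomial]
      have hc : c i ≠ 0 := by simpa using h
      by_cases hu : u = c
      · subst hu
        rw [if_pos rfl, if_pos rfl]; ring
      · rw [if_neg hu, mul_zero]
        by_cases h2 : u i = 0
        · rw [h2]; simp
        · rw [if_neg]
          intro h3
          apply hu
          ext k
          have h4 := DFunLike.congr_fun h3 k
          simp only [Finsupp.coe_tsub, Pi.sub_apply] at h4
          by_cases hk : k = i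
          · subst hk
            simp only [Finsupp.single_eq_same] at h4
            omega
          · rw [Finsupp.single_eq_of_ne hk] at h4
            simpa using h4
    · rw [if_neg h]
      have hc : c i = 0 := by simpa using h
      rw [hc]; simp
  | add p q hp hq =>
    rw [map_add, mul_add, coeff_add, coeff_add, hp, hq]; ring

lemma supH_euler {v : Fin r → Fin N → ℕ} {m : ℕ} {p : MvPolynomial (Fin N) R}
    (h : SupH v m p) (i : Fin N) : SupH v m (X i * pderiv i p) := by
  intro c hc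
  rw [euler_coeff] at hc
  exact h c fun h0 => hc (by rw [h0, mul_zero])

lemma hul_finite (v : Fin r → Fin N → ℕ) (m : ℕ) : {c | Hul v m c}.Finite := by
  classical
  -- bounded coordinates
  let b : Fin N → ℕ := fun i => m * ∑ j, v j i
  have : {c | Hul v m c} ⊆ Set.Iic (Finsupp.equivFunOnFinite.symm b) := by
    rintro c ⟨l, h1, h2, h3⟩
    intro i
    have hl : ∀ j, l j ≤ m := by
      intro j
      rw [← h2]
      exact Finset.single_le_sum (fun j _ => h1 j) (Finset.mem_univ j)
    have h4 : (c i : ℝ) ≤ ((m * ∑ j, v j i : ℕ) : ℝ) := by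
      rw [← h3 i]
      push_cast
      rw [Finset.mul_sum]
      exact Finset.sum_le_sum fun j _ => mul_le_mul_of_nonneg_right (hl j) (Nat.cast_nonneg _)
    have h5 : c i ≤ m * ∑ j, v j i := by exact_mod_cast h4
    simpa [b] using h5
  exact (Set.finite_Iic _).subset this

end supp

section dC

variable {N r : ℕ} {k : Type} [Field k]

lemma dC_coeff {σ : Type} (p : MvPolynomial σ (PowerSeries k)) (c : σ →₀ ℕ) :
    coeff c (dC p) = PowerSeries.derivative k (coeff c p) := by
  classical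
  unfold dC
  rw [coeff_sum]
  simp only [coeff_monomial]
  rw [Finset.sum_ite_eq' p.support c]
  split_ifs with h
  · rfl
  · rw [notMem_support_iff] at h
    rw [h, map_zero]

lemma supH_dC {v : Fin r → Fin N → ℕ} {m : ℕ} {p : MvPolynomial (Fin N) (PowerSeries k)}
    (h : SupH v m p) : SupH v m (dC p) := by
  intro c hc
  rw [dC_coeff] at hc
  exact h c fun h0 => hc (by rw [h0, map_zero])

end dC

section thm

variable {N r : ℕ}

/-- abbreviation: power series -/
abbrev RR : Type := PowerSeries ℂ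

/-- abbreviation: the ring of operators -/
noncomputable abbrev BB (N : ℕ) : Type := MvPolynomial (Option (Fin N)) RR

/-- additive, semilinear, commuting with `nab` -/
def Good (T : Fn N RR → Fn N RR) : Prop :=
  (∀ u w, T (u + w) = T u + T w) ∧
  (∃ τ : BB N → BB N, ∀ (q : BB N) u, T (q • u) = τ q • T u) ∧
  (∀ q : BB N, ∀ u, ∃ q' : BB N, q • T u = T (q' • u)) ∧
  (∀ u, nab (T u) = T (nab u))

/-- The span of the images of `G` under the operators in `T`. -/
noncomputable def Sp (T : Set (Fn N RR → Fn N RR)) (G : Set (Fn N RR)) : Submodule (BB N) (Fn N RR) :=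
  Submodule.span (BB N) {y | ∃ t ∈ T, ∃ g ∈ G, y = t g}

lemma Good.zero {T : Fn N RR → Fn N RR} (h : Good T) : T 0 = 0 := by
  have := h.1 0 0
  rw [add_zero] at this
  exact left_eq_add.1 this

lemma Good.span {T : Fn N RR → Fn N RR} (h : Good T) (𝒯 : Set (Fn N RR → Fn N RR))
    (hT : T ∈ 𝒯) (G : Set (Fn N RR)) (x : Fn N RR) (hx : x ∈ Submodule.span (BB N) G) :
    T x ∈ Sp 𝒯 G := by
  induction hx using Submodule.span_induction with
  | mem x hx => exact Submodule.subset_span ⟨T, hT, x, hx, rfl⟩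
  | zero => rw [h.zero]; exact zero_mem _
  | add x y _ _ hx hy => rw [h.1]; exact add_mem hx hy
  | smul q x _ hx =>
    obtain ⟨τ, hτ⟩ := h.2.1
    rw [hτ]
    exact Submodule.smul_mem _ _ hx

lemma Sp.nab_mem (hadd : ∀ u w : Fn N RR, nab (u + w) = nab u + nab w)
    (hsm : ∀ (p : BB N) (u : Fn N RR), nab (p • u) = p • nab u + dC p • u)
    (𝒯 : Set (Fn N RR → Fn N RR)) (h𝒯 : ∀ T ∈ 𝒯, Good T) (G : Set (Fn N RR))
    (hG : ∀ x ∈ G, nab x ∈ Submodule.span (BB N) G) (x : Fn N RR) (hx : x ∈ Sp 𝒯 G) :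
    nab x ∈ Sp 𝒯 G := by
  have h0 : nab (0 : Fn N RR) = 0 := by
    have := hadd 0 0
    rw [add_zero] at this
    exact left_eq_add.1 this
  unfold Sp at hx
  induction hx using Submodule.span_induction with
  | mem x hx =>
    obtain ⟨T, hT, g, hg, rfl⟩ := hx
    rw [(h𝒯 T hT).2.2.2]
    exact (h𝒯 T hT).span 𝒯 hT G _ (hG g hg)
  | zero => rw [h0]; exact zero_mem _
  | add x y _ _ hx hy => rw [hadd]; exact add_mem hx hy
  | smul q x hx' hx =>
    rw [hsm]
    exact add_mem (Submodule.smul_mem _ _ hx) (Submodule.smul_mem _ _ hx')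

lemma Sp.fg (𝒯 : Set (Fn N RR → Fn N RR)) (h𝒯 : 𝒯.Finite) (G : Set (Fn N RR))
    (hG : G.Finite) : (Sp 𝒯 G).FG := by
  unfold Sp
  apply Submodule.fg_span
  have : {y | ∃ t ∈ 𝒯, ∃ g ∈ G, y = t g} = Set.image2 (fun t g => t g) 𝒯 G := by
    ext y
    simp only [Set.mem_ofPred_eq, Set.mem_image2]
    constructor
    · rintro ⟨t, ht, g, hg, rfl⟩; exact ⟨t, ht, g, hg, rfl⟩
    · rintro ⟨t, ht, g, hg, rfl⟩; exact ⟨t, ht, g, hg, rfl⟩
  rw [this]
  exact h𝒯.image2 _ hG

/-- elements of `Sp` are finite sums -/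
lemma Sp.rep (𝒯 : Set (Fn N RR → Fn N RR)) (h𝒯 : ∀ T ∈ 𝒯, Good T) (G : Set (Fn N RR))
    (x : Fn N RR) (hx : x ∈ Sp 𝒯 G) :
    ∃ (n : ℕ) (T : Fin n → Fn N RR → Fn N RR) (g : Fin n → Fn N RR) (q : Fin n → BB N),
      (∀ k, T k ∈ 𝒯) ∧ (∀ k, g k ∈ G) ∧ x = ∑ k, T k (q k • g k) := by
  unfold Sp at hx
  rw [Submodule.mem_span_set'] at hx
  obtain ⟨n, f, g, rfl⟩ := hx
  have hg : ∀ k, ∃ t ∈ 𝒯, ∃ y ∈ G, (g k : Fn N RR) = t y := fun k => (g k).2
  choose t ht y hy hty using hg
  have hq : ∀ k, ∃ q' : BB N, f k • t k (y k) = t k (q' • y k) := fun k =>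
    (h𝒯 _ (ht k)).2.2.1 _ _
  choose q' hq' using hq
  refine ⟨n, t, y, q', ht, hy, ?_⟩
  refine Finset.sum_congr rfl fun k _ => ?_
  rw [← hq', hty]

/-- the generators -/
def gens (v : Fin r → Fin N → ℕ) (f : MvPolynomial (Fin N) RR) (K : ℕ) : Set (Fn N RR) :=
  {u | ∃ m c, m ≤ K ∧ Hul v m c ∧ u = brk f (monomial c 1) m}

lemma gens_finite (v : Fin r → Fin N → ℕ) (f : MvPolynomial (Fin N) RR) (K : ℕ) :
    (gens v f K).Finite := by
  have : gens v f K = ⋃ m ∈ Set.Iic K, (fun c => brk f (monomial c 1) m) '' {c | Hul v m c} := by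
    ext u
    simp only [gens, Set.mem_ofPred_eq, Set.mem_iUnion, Set.mem_image, Set.mem_Iic]
    constructor
    · rintro ⟨m, c, hm, hc, rfl⟩; exact ⟨m, hm, c, hc, rfl⟩
    · rintro ⟨m, hm, c, hc, rfl⟩; exact ⟨m, c, hm, hc, rfl⟩
  rw [this]
  exact (Set.finite_Iic K).biUnion fun m _ => (hul_finite v m).image _

lemma brk_mem (hBRK : TaskBRK) (v : Fin r → Fin N → ℕ) (f : MvPolynomial (Fin N) RR) (K : ℕ)
    (hgen : Gen v f K) (m : ℕ) : ∀ p : MvPolynomial (Fin N) RR, SupH v m p →
      brk f p m ∈ Submodule.span (BB N) (gens v f K) := by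
  classical
  obtain ⟨hA, hC, hF, hX, -, -⟩ := hBRK
  -- additive
  have h0 : ∀ m, brk f (0 : MvPolynomial (Fin N) RR) m = 0 := by
    intro m
    have := hA N RR f 0 0 m
    rw [add_zero] at this
    exact left_eq_add.1 this
  have hmono : ∀ m, (∀ c, Hul v m c → brk f (monomial c 1) m ∈
      Submodule.span (BB N) (gens v f K)) → ∀ p : MvPolynomial (Fin N) RR, SupH v m p →
      brk f p m ∈ Submodule.span (BB N) (gens v f K) := by
    intro m hm p hp
    have hsum : ∀ S : Finset (Fin N →₀ ℕ), (∀ c ∈ S, Hul v m c) → ∀ g : (Fin N →₀ ℕ) → RR,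
        brk f (∑ c ∈ S, monomial c (g c)) m ∈ Submodule.span (BB N) (gens v f K) := by
      intro S
      induction S using Finset.induction_on with
      | empty => intro _ g; rw [Finset.sum_empty, h0]; exact zero_mem _
      | insert c S hc ih =>
        intro hS g
        rw [Finset.sum_insert hc, hA]
        refine add_mem ?_ (ih (fun c' h' => hS c' (Finset.mem_insert_of_mem h')) g)
        have : (monomial c (g c) : MvPolynomial (Fin N) RR) = C (g c) * monomial c 1 := by
          rw [C_mul_monomial, mul_one]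
        rw [this, hC]
        exact Submodule.smul_mem _ _ (hm c (hS c (Finset.mem_insert_self _ _)))
    rw [p.as_sum]
    exact hsum p.support (fun c hc => hp c (mem_support_iff.1 hc)) _
  induction m with
  | zero =>
    apply hmono
    intro c hc
    exact Submodule.subset_span ⟨0, c, Nat.zero_le _, hc, rfl⟩
  | succ m ih =>
    apply hmono
    intro c hc
    rcases le_or_gt (m + 1) K with hK | hK
    · exact Submodule.subset_span ⟨m + 1, c, hK, hc, rfl⟩
    · obtain ⟨p0, p, hp0, hp, he⟩ := hgen m (by omega) c hc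
      rw [he, hA]
      refine add_mem ?_ ?_
      · rw [hF]
        exact Submodule.smul_mem _ _ (ih p0 hp0)
      · have hsum : ∀ S : Finset (Fin N),
            brk f (∑ i ∈ S, p i * (X i * pderiv i f)) (m + 1) ∈
              Submodule.span (BB N) (gens v f K) := by
          intro S
          induction S using Finset.induction_on with
          | empty => rw [Finset.sum_empty, h0]; exact zero_mem _
          | insert i S hi ih2 =>
            rw [Finset.sum_insert hi, hA]
            refine add_mem ?_ ih2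
            have h1 := hX N RR f (p i) i m
            have h2 : brk f (p i * (X i * pderiv i f)) (m + 1) =
                (X (some i) : BB N) • brk f (p i) m - brk f (X i * pderiv i (p i)) m := by
              rw [h1]; abel
            rw [h2]
            exact sub_mem (Submodule.smul_mem _ _ (ih _ (hp i))) (ih _ (supH_euler (hp i) i))
        exact hsum Finset.univ

lemma gens_nab (hBRK : TaskBRK) (v : Fin r → Fin N → ℕ) (a' : Fin r → RR) (K : ℕ)
    (hgen : Gen v (spa v a') K) (x : Fn N RR) (hx : x ∈ gens v (spa v a') K) :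
    nab x ∈ Submodule.span (BB N) (gens v (spa v a') K) := by
  obtain ⟨m, c, hm, hc, rfl⟩ := hx
  rw [hBRK.2.2.2.2.2]
  have h1 : SupH v m (monomial c (1 : RR)) := by
    classical
    intro c' hc'
    rw [coeff_monomial] at hc'
    by_cases h : c = c'
    · rwa [← h]
    · rw [if_neg h] at hc'; exact absurd rfl hc'
  exact add_mem (brk_mem hBRK v _ K hgen m _ (supH_dC h1))
    (brk_mem hBRK v _ K hgen (m + 1) _ (supH_mul h1 (supH_dC (spa_supH v a'))))

lemma good_low_sh (hALG : TaskALG) (δ : Fin N → ℤ) (L : ℕ) :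
    Good (fun u : Fn N RR => low δ (sh L u)) := by
  obtain ⟨h1, h2, h3, h4, h5, h6, h7, h8, h9, h10, h11⟩ := hALG
  refine ⟨fun u w => ?_, ⟨fun q => trA δ (shA L q), fun q u => ?_⟩, fun q u => ?_, fun u => ?_⟩
  · show low δ (sh L (u + w)) = low δ (sh L u) + low δ (sh L w)
    rw [h4, h1]
  · show low δ (sh L (q • u)) = _ • low δ (sh L u)
    rw [h6, h2]
  · obtain ⟨q', -, hq'⟩ := h7 N RR L (trA (fun i => -δ i) q) u
    refine ⟨q', ?_⟩
    show q • low δ (sh L u) = low δ (sh L (q' • u))
    rw [h3, hq']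
  · show nab (low δ (sh L u)) = low δ (sh L (nab u))
    rw [h10, h11]

/-- the operator `low δ ∘ sh L` -/
noncomputable def op (a : (Fin N → ℤ) × ℕ) (u : Fn N RR) : Fn N RR := low a.1 (sh a.2 u)

/-- the span of the images under the operators `op a`, `a ∈ A` -/
noncomputable def SA (A : Set ((Fin N → ℤ) × ℕ)) (G : Set (Fn N RR)) :
    Submodule (BB N) (Fn N RR) := Sp (op '' A) G

lemma good_op (hALG : TaskALG) (a : (Fin N → ℤ) × ℕ) : Good (op a) := good_low_sh hALG a.1 a.2

lemma SA.good (hALG : TaskALG) (A : Set ((Fin N → ℤ) × ℕ)) : ∀ T ∈ op '' A, Good T := by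
  rintro T ⟨a, -, rfl⟩
  exact good_op hALG a

lemma SA.mono {A A' : Set ((Fin N → ℤ) × ℕ)} (h : A ⊆ A') (G : Set (Fn N RR)) :
    SA A G ≤ SA A' G := by
  apply Submodule.span_mono
  rintro y ⟨t, ⟨a, ha, rfl⟩, g, hg, rfl⟩
  exact ⟨_, ⟨a, h ha, rfl⟩, g, hg, rfl⟩

lemma SA.union (A A' : Set ((Fin N → ℤ) × ℕ)) (G : Set (Fn N RR)) :
    SA (A ∪ A') G = SA A G ⊔ SA A' G := by
  unfold SA Sp
  rw [← Submodule.span_union]
  congr 1
  ext y
  simp only [Set.mem_ofPred_eq, Set.mem_union]
  constructor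
  · rintro ⟨t, ⟨a, ha | ha, rfl⟩, g, hg, rfl⟩
    · exact Or.inl ⟨_, ⟨a, ha, rfl⟩, g, hg, rfl⟩
    · exact Or.inr ⟨_, ⟨a, ha, rfl⟩, g, hg, rfl⟩
  · rintro (⟨t, ⟨a, ha, rfl⟩, g, hg, rfl⟩ | ⟨t, ⟨a, ha, rfl⟩, g, hg, rfl⟩)
    · exact ⟨_, ⟨a, Or.inl ha, rfl⟩, g, hg, rfl⟩
    · exact ⟨_, ⟨a, Or.inr ha, rfl⟩, g, hg, rfl⟩

lemma SA.mem {A : Set ((Fin N → ℤ) × ℕ)} {G : Set (Fn N RR)} {a : (Fin N → ℤ) × ℕ}
    {g : Fn N RR} (ha : a ∈ A) (hg : g ∈ G) : low a.1 (sh a.2 g) ∈ SA A G :=
  Submodule.subset_span ⟨_, ⟨a, ha, rfl⟩, g, hg, rfl⟩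

lemma low_zero {R : Type} [CommRing R] (u : Fn N R) : low 0 u = u := by
  funext s e
  unfold low tr
  rw [if_pos (by intro i; simp)]
  simp only [Pi.zero_apply, add_zero, Int.toNat_natCast, Int.toNat_zero, Nat.descFactorial_zero,
    Finset.prod_const_one, Nat.cast_one, one_mul]
  congr 1
  ext i
  simp

lemma sh_zero {R : Type} (u : Fn N R) : sh 0 u = u := rfl

lemma sh_add {R : Type} (L j : ℕ) (u : Fn N R) : sh (L + j) u = sh j (sh L u) := by
  funext s e
  show u (s + (L + j)) e = u (s + j + L) e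
  rw [show s + (L + j) = s + j + L by ring]

lemma low_sum {R ι : Type} [CommRing R] (hALG : TaskALG) (δ : Fin N → ℤ) (S : Finset ι)
    (u : ι → Fn N R) : low δ (∑ k ∈ S, u k) = ∑ k ∈ S, low δ (u k) := by
  classical
  induction S using Finset.induction_on with
  | empty =>
    rw [Finset.sum_empty, Finset.sum_empty]
    have := hALG.1 N R δ 0 0
    rw [add_zero] at this
    exact left_eq_add.1 this
  | insert k S hk ih => rw [Finset.sum_insert hk, Finset.sum_insert hk, hALG.1, ih]

lemma sh_sum {R ι : Type} [CommRing R] (hALG : TaskALG) (L : ℕ) (S : Finset ι)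
    (u : ι → Fn N R) : sh L (∑ k ∈ S, u k) = ∑ k ∈ S, sh L (u k) := by
  classical
  induction S using Finset.induction_on with
  | empty =>
    rw [Finset.sum_empty, Finset.sum_empty]
    have := hALG.2.2.2.1 N R L 0 0
    rw [add_zero] at this
    exact left_eq_add.1 this
  | insert k S hk ih => rw [Finset.sum_insert hk, Finset.sum_insert hk, hALG.2.2.2.1, ih]

lemma mp_sum {R S' ι : Type} [CommRing R] [CommRing S'] (φ : R →+* S') (S : Finset ι)
    (u : ι → Fn N R) : mp φ (∑ k ∈ S, u k) = ∑ k ∈ S, mp φ (u k) := by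
  classical
  induction S using Finset.induction_on with
  | empty =>
    rw [Finset.sum_empty, Finset.sum_empty]
    funext s e
    exact map_zero φ
  | insert k S hk ih => rw [Finset.sum_insert hk, Finset.sum_insert hk, mp_add, ih]

lemma isRep_sum {R ι : Type} [CommRing R] (hR1 : TaskREP1) (f : MvPolynomial (Fin N) R)
    (S : Finset ι) (u : ι → Fn N R) (h : ∀ k, IsRep f (u k)) : IsRep f (∑ k ∈ S, u k) := by
  classical
  induction S using Finset.induction_on with
  | empty =>
    rw [Finset.sum_empty]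
    have := (hR1 N R f).2.2.1 0 _ ((hR1 N R f).1 0 0)
    rwa [zero_smul] at this
  | insert k S hk ih =>
    rw [Finset.sum_insert hk]
    exact (hR1 N R f).2.1 _ _ (h k) ih

lemma gen_zero_mem (v : Fin r → Fin N → ℕ) (f : MvPolynomial (Fin N) RR) (K : ℕ) :
    brk f (monomial 0 1) 0 ∈ gens v f K := ⟨0, 0, Nat.zero_le _, Hul.zero, rfl⟩

lemma brk_zero_mem (hBRK : TaskBRK) (v : Fin r → Fin N → ℕ) (f : MvPolynomial (Fin N) RR)
    (K : ℕ) (p : MvPolynomial (Fin N) RR) :
    brk f p 0 ∈ SA ((fun c : Fin N →₀ ℕ => ((fun i => -(c i : ℤ)), 0)) '' (p.support : Set _))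
      (gens v f K) := by
  classical
  obtain ⟨hA, hC, -, -, hM, -⟩ := hBRK
  have h0 : brk f (0 : MvPolynomial (Fin N) RR) 0 = 0 := by
    have := hA N RR f 0 0 0
    rw [add_zero] at this
    exact left_eq_add.1 this
  have hsum : ∀ S : Finset (Fin N →₀ ℕ), ∀ g : (Fin N →₀ ℕ) → RR,
      brk f (∑ c ∈ S, monomial c (g c)) 0 ∈
        SA ((fun c : Fin N →₀ ℕ => ((fun i => -(c i : ℤ)), 0)) '' (S : Set _)) (gens v f K) := by
    intro S
    induction S using Finset.induction_on with
    | empty => intro g; rw [Finset.sum_empty, h0]; exact zero_mem _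
    | insert c S hc ih =>
      intro g
      rw [Finset.sum_insert hc, hA]
      refine add_mem ?_ (SA.mono (Set.image_mono (by simp)) _ (ih g))
      have : (monomial c (g c) : MvPolynomial (Fin N) RR) = C (g c) * monomial c 1 := by
        rw [C_mul_monomial, mul_one]
      rw [this, hC]
      apply Submodule.smul_mem
      have h1 := hM N RR f (monomial 0 1) c 0
      rw [monomial_mul, add_zero, mul_one] at h1
      rw [← h1]
      have h2 : ((fun i => -(c i : ℤ)), 0) ∈ (fun c : Fin N →₀ ℕ => ((fun i => -(c i : ℤ)), 0)) ''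
          ((insert c S : Finset (Fin N →₀ ℕ)) : Set (Fin N →₀ ℕ)) :=
        Set.mem_image_of_mem _ (Finset.mem_coe.2 (Finset.mem_insert_self c S))
      have h3 := SA.mem h2 (gen_zero_mem v f K)
      exact h3
  have := hsum p.support fun c => coeff c p
  rwa [← p.as_sum] at this

lemma sh_brk (f : MvPolynomial (Fin N) RR) (j : ℕ) : sh j (brk f 1 0) = brk f (f ^ j) 0 := by
  funext s e
  show coeff e (1 * (((s + j).descFactorial 0 : ℕ) : MvPolynomial (Fin N) RR) * f ^ (s + j - 0)) =
    coeff e (f ^ j * ((s.descFactorial 0 : ℕ) : MvPolynomial (Fin N) RR) * f ^ (s - 0))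
  have h : (1 * (((s + j).descFactorial 0 : ℕ) : MvPolynomial (Fin N) RR) * f ^ (s + j - 0)) =
      (f ^ j * ((s.descFactorial 0 : ℕ) : MvPolynomial (Fin N) RR) * f ^ (s - 0)) := by
    rw [Nat.descFactorial_zero, Nat.descFactorial_zero, Nat.sub_zero, Nat.sub_zero, pow_add,
      one_mul, Nat.cast_one, one_mul, mul_one, mul_comm]
  rw [h]

lemma map_shA {R S : Type} [CommRing R] [CommRing S] (φ : R →+* S) (L : ℕ)
    (p : MvPolynomial (Option (Fin N)) R) : map φ (shA L p) = shA L (map φ p) := by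
  induction p using MvPolynomial.induction_on with
  | C a => simp [shA]
  | add p q hp hq => simp only [map_add, hp, hq]
  | mul_X p o hp =>
    simp only [map_mul, hp, map_X]
    congr 1
    cases o <;> simp [shA]

lemma map_Bop (B : Polynomial ℂ) : map (PowerSeries.C : ℂ →+* PowerSeries ℂ)
    (Bop B : MvPolynomial (Option (Fin N)) ℂ) = (Bop B : MvPolynomial (Option (Fin N)) RR) := by
  unfold Bop
  induction B using Polynomial.induction_on' with
  | add p q hp hq => simp only [map_add, hp, hq]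
  | monomial n a =>
    simp only [Polynomial.aeval_monomial, map_mul, map_pow, map_X]
    congr 1
    show map PowerSeries.C (C a) = algebraMap ℂ (MvPolynomial (Option (Fin N)) RR) a
    rw [map_C]
    rfl

lemma map_cc {σ : Type} (p : MvPolynomial σ ℂ) :
    map (PowerSeries.constantCoeff : PowerSeries ℂ →+* ℂ) (map PowerSeries.C p) = p := by
  rw [map_map, show (PowerSeries.constantCoeff : PowerSeries ℂ →+* ℂ).comp PowerSeries.C =
    RingHom.id ℂ from by ext x; simp]
  exact map_id p

end thm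

end Pool.Agent.W425.ND.DefThm
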