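import Pool.Agent.W425.ND.Stm2
import Pool.Agent.W425.ND.DefMain
import Pool.Agent.W422.GC.Up

set_option autoImplicit false

/-! Project ND: assembly. -/

namespace Pool.Agent.W425.ND

open MvPolynomial Pool.Agent.H628R4.TZ Pool.Agent.H628R4.TP Pool.Agent.W425.SM
  Pool.Agent.W425.SG Pool.Agent.W422.GC

variable {r N : ℕ}

/-- The parts. -/
structure Parts : Prop where
  cn : TaskCN
  exp : TaskEXP
  nak : TaskNAK
  alg : TaskALG
  brk : TaskBRK
  rep1 : TaskREP1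
  rep2 : TaskREP2
  desc : TaskDESC
  kou : ∀ (r N : ℕ) (v : Fin r → Fin N → ℕ) (a : Fin r → ℂ), Nondeg v a →
    ∃ K, Gen v (spa v a) K
  spec : TaskSPEC
  v2e : ∀ (r N : ℕ) (_ : r ≠ 0) (loc : Prop) (v : Fin r → Fin N → ℕ)
    (A : MvPolynomial (Fin r) ℂ) (B : Polynomial ℂ) (θ : Fin r → ℝ) (_ : LinearIndependent ℚ θ)
    (_ : A ≠ 0) (_ : Rel loc v (spa v (X : Fin r → MvPolynomial (Fin r) ℂ)) A B),
    Pool.Agent.W425.SV.RelV v θ loc B

lemma exists_ne_zero [NeZero r] (v : Fin r → Fin N → ℕ) (a : Fin r → ℂ) (h : Nondeg v a) :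
    ∃ j, a j ≠ 0 := by
  by_contra h0
  push Not at h0
  refine h 0 (fun _ => 1) (fun _ => one_ne_zero) ⟨?_, fun i => ?_⟩
  · simp [h0]
  · simp [h0]

lemma spa_ne_zero [NeZero r] {v : Fin r → Fin N → ℕ} (hv : Function.Injective v)
    (a : Fin r → ℂ) (h : Nondeg v a) : spa v a ≠ 0 := by
  classical
  obtain ⟨j, hj⟩ := exists_ne_zero v a h
  intro h0
  apply hj
  have h1 := congrArg (coeff (Finsupp.equivFunOnFinite.symm (v j))) h0
  rw [DefThm.spa_coeff, coeff_zero] at h1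
  rw [← h1]
  have : ∀ j', (if (Finsupp.equivFunOnFinite.symm (v j) : Fin N →₀ ℕ) =
      Finsupp.equivFunOnFinite.symm (v j') then a j' else 0) = if j = j' then a j' else 0 := by
    intro j'
    by_cases h2 : j = j'
    · rw [if_pos h2, if_pos (by rw [h2])]
    · rw [if_neg h2, if_neg]
      intro h3
      exact h2 (hv (Finsupp.equivFunOnFinite.symm.injective h3))
  simp only [this]
  simp

lemma spa_map (v : Fin r → Fin N → ℕ) (a' : Fin r → PowerSeries ℂ) (a : Fin r → ℂ)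
    (h : ∀ j, PowerSeries.constantCoeff (a' j) = a j) :
    map PowerSeries.constantCoeff (spa v a') = spa v a := by
  unfold spa
  rw [map_sum]
  refine Finset.sum_congr rfl fun j _ => ?_
  rw [map_mul, map_C, map_prod, h]
  congr 1
  refine Finset.prod_congr rfl fun i _ => ?_
  rw [map_pow, map_X]

open Polynomial in
/-- The core theorem. -/
theorem core_of (T : Parts) [NeZero r] (loc : Prop) (v : Fin r → Fin N → ℕ) (a : Fin r → ℂ)
    (hv : Function.Injective v) (hv0 : ∀ j, v j ≠ 0) (hnd : Nondeg v a) (R : SmoothFan N)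
    (hR : Principal v R) (α : ℝ) (hα0 : α ≠ 0) (hα : loc → α < 0)
    (b : ℂ[X]) (hb : UnitEq loc (spa v a) b) :
    ∃ (K : ℕ) (P : ℂ[X]), algebraMap ℂ[X] (RatFunc ℂ) ((Polynomial.X + 1) * prodb b K) *
      topZG v R α = algebraMap ℂ[X] (RatFunc ℂ) P := by
  obtain ⟨K, hK⟩ := T.kou r N v a hnd
  obtain ⟨a', ha', hind⟩ := T.exp r a
  have hgen := T.nak r N v a K hK a' ha'
  have hrel := DefThm.def_of T.cn T.alg T.brk T.rep1 T.rep2 loc v (spa v a') a' rfl
    (by rw [spa_map v a' a ha']; exact spa_ne_zero hv a hnd) K hgen (prodb b K) (by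
      intro m c hm _
      rw [spa_map v a' a ha']
      exact T.spec N loc (spa v a) b hb K m hm (monomial c 1))
  obtain ⟨A, hA, hrel2⟩ := T.desc r N loc v a' (prodb b K) hind hrel
  obtain ⟨θ, hθ⟩ := exists_heights r
  have hV := T.v2e r N (NeZero.ne r) loc v A (prodb b K) θ hθ hA hrel2
  obtain ⟨P, hP⟩ := Pool.Agent.W425.SV.mainV_rel v hv hv0 θ hθ loc R hR α hα0 hα _ hV
  refine ⟨K, P, ?_⟩
  rw [topZG_eq v θ hθ]
  exact hP

lemma spa_const (v : Fin r → Fin N → ℕ) (hv0 : ∀ j, v j ≠ 0) (a : Fin r → ℂ) :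
    constantCoeff (spa v a) = 0 := SL.sparse_const hv0 a

open Polynomial in
theorem prodb_eval (b : ℂ[X]) (K : ℕ) (s : ℂ) : (prodb b K).eval s =
    ∏ i ∈ Finset.range (K + 1), b.eval (s - i) := by
  unfold prodb
  rw [Polynomial.eval_prod]
  refine Finset.prod_congr rfl fun i _ => ?_
  rw [Polynomial.eval_comp]
  simp

open Polynomial in
/-- The global theorem. -/
theorem global_of (T : Parts) (hr : 1 ≤ r) (v : Fin r → Fin N → ℕ) (a : Fin r → ℂ)
    (hv : Function.Injective v) (hv0 : ∀ j, v j ≠ 0) (hnd : Nondeg v a) (R : SmoothFan N)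
    (hR : Principal v R) (b : ℂ[X]) (hb : IsBFunction (sparse v a) b) :
    b.eval (-1) = 0 ∧ ∃ (K : ℕ) (P : ℂ[X]), algebraMap ℂ[X] (RatFunc ℂ)
      ((Polynomial.X + 1) * ∏ i ∈ Finset.range (K + 1), b.comp (Polynomial.X - Polynomial.C (i : ℂ))) *
      topZetaG v R = algebraMap ℂ[X] (RatFunc ℂ) P := by
  have : NeZero r := ⟨by omega⟩
  have h1 : b.eval (-1) = 0 := (Pool.Agent.W368.SL.taskL1 (sparse v a) b
    (spa_ne_zero hv a hnd) (spa_const v hv0 a) (isLocal hb)).1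
  refine ⟨h1, ?_⟩
  rw [← topZG_one]
  refine core_of T False v a hv hv0 hnd R hR 1 one_ne_zero (fun h => h.elim) b ?_
  obtain ⟨P, hP⟩ := hb
  refine ⟨1, P, map_one _, fun _ => rfl, fun s => ?_⟩
  rw [mul_one]
  exact hP s

open Polynomial in
/-- The local theorem. -/
theorem local_of (T : Parts) (hr : 1 ≤ r) (v : Fin r → Fin N → ℕ) (a : Fin r → ℂ)
    (hv : Function.Injective v) (hv0 : ∀ j, v j ≠ 0) (hnd : Nondeg v a) (R : SmoothFan N)
    (hR : Principal v R) (b : ℂ[X]) (hb : Pool.Agent.H628R4.TP.IsLocalBFunction (sparse v a) b) :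
    b.eval (-1) = 0 ∧ ∃ (K : ℕ) (P : ℂ[X]), algebraMap ℂ[X] (RatFunc ℂ)
      ((Polynomial.X + 1) * ∏ i ∈ Finset.range (K + 1), b.comp (Polynomial.X - Polynomial.C (i : ℂ))) *
      topZetaGLocal v R = algebraMap ℂ[X] (RatFunc ℂ) P := by
  have : NeZero r := ⟨by omega⟩
  obtain ⟨h1, c, P, hc, hP⟩ := Pool.Agent.W368.SL.taskL1 (sparse v a) b
    (spa_ne_zero hv a hnd) (spa_const v hv0 a) (Pool.Agent.W425.SL.toSL hb)
  refine ⟨h1, ?_⟩
  rw [← topZG_neg]
  exact core_of T True v a hv hv0 hnd R hR (-1) (by norm_num) (fun _ => by norm_num) b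
    ⟨c, P, hc, fun h => absurd trivial h, hP⟩

open Polynomial in
/-- Poles from a denominator. -/
theorem pole_of (b : ℂ[X]) (hb0 : b ≠ 0) (h1 : b.eval (-1) = 0) (Z : RatFunc ℂ) (K : ℕ)
    (P : ℂ[X]) (h : algebraMap ℂ[X] (RatFunc ℂ)
      ((Polynomial.X + 1) * ∏ i ∈ Finset.range (K + 1), b.comp (Polynomial.X - Polynomial.C (i : ℂ))) * Z =
      algebraMap ℂ[X] (RatFunc ℂ) P) (s : ℂ) (hs : Z.denom.eval s = 0) :
    ∃ i : ℕ, b.eval (s - i) = 0 := by
  set D : ℂ[X] := (Polynomial.X + 1) *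
    ∏ i ∈ Finset.range (K + 1), b.comp (Polynomial.X - Polynomial.C (i : ℂ)) with hD
  have hD0 : D ≠ 0 := by
    rw [hD]
    refine mul_ne_zero ?_ (Finset.prod_ne_zero_iff.2 fun i _ => ?_)
    · intro h0
      have := congrArg (Polynomial.eval 0) h0
      simp at this
    · intro h0
      apply hb0
      have := congrArg (fun q : ℂ[X] => q.comp (Polynomial.X + Polynomial.C (i : ℂ))) h0
      simpa [Polynomial.comp_assoc] using this
  have hdvd : Z.denom ∣ D := by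
    rw [RatFunc.denom_dvd hD0]
    refine ⟨P, ?_⟩
    rw [eq_div_iff, mul_comm, h]
    exact (map_ne_zero_iff _ (RatFunc.algebraMap_injective ℂ)).2 hD0
  obtain ⟨Q, hQ⟩ := hdvd
  have h2 : D.eval s = 0 := by rw [hQ, Polynomial.eval_mul, hs, zero_mul]
  rw [hD, Polynomial.eval_mul, Polynomial.eval_prod] at h2
  rcases mul_eq_zero.1 h2 with h3 | h3
  · have h4 : s = -1 := by
      simp only [Polynomial.eval_add, Polynomial.eval_X, Polynomial.eval_one] at h3
      exact eq_neg_of_add_eq_zero_left h3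
    exact ⟨0, by rw [h4]; simpa using h1⟩
  · obtain ⟨i, -, hi⟩ := Finset.prod_eq_zero_iff.1 h3
    refine ⟨i, ?_⟩
    rw [Polynomial.eval_comp] at hi
    simpa using hi

end Pool.Agent.W425.ND
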