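import Pool.Agent.W425.ND.Stm
import Pool.Agent.W425.SV.Defs

set_option autoImplicit false

/-! Project ND: statements of the parts SPEC and V2E. -/

namespace Pool.Agent.W425.ND

open MvPolynomial

/-- Part SPEC: the functional equation for all `brk f p m`, `m ≤ K`. -/
def TaskSPEC : Prop := ∀ (N : ℕ) (loc : Prop) (f : MvPolynomial (Fin N) ℂ) (b : Polynomial ℂ),
  Pool.Agent.W425.SG.UnitEq loc f b → ∀ (K m : ℕ), m ≤ K → ∀ p : MvPolynomial (Fin N) ℂ,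
  ∃ (n n0 : ℕ) (δ : Fin n → Fin N → ℤ) (P : Fin n → MvPolynomial (Option (Fin N)) ℂ)
    (δ0 : Fin n0 → Fin N → ℤ) (α : Fin n0 → ℂ),
    (∀ k, loc ∧ (∀ i, δ0 k i ≤ 0) ∧ δ0 k ≠ 0) ∧
    (Bop (prodb b K) : MvPolynomial (Option (Fin N)) ℂ) • brk f p m =
      ∑ k, low (δ k) (P k • sh 1 (brk f 1 0)) +
      ∑ k, low (δ0 k) ((C (α k) * Bop (prodb b K) : MvPolynomial (Option (Fin N)) ℂ) • brk f p m)

/-- Part V2E: comparison of the coefficients of `x ^ (∑ u_j v_j) y ^ (u + μ)`. -/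
def TaskV2E : Prop := ∀ (r N : ℕ) (loc : Prop) (v : Fin r → Fin N → ℕ)
  (A : MvPolynomial (Fin r) ℂ) (B : Polynomial ℂ) (θ : Fin r → ℝ), LinearIndependent ℚ θ →
  A ≠ 0 → Rel loc v (spa v (X : Fin r → MvPolynomial (Fin r) ℂ)) A B →
  Pool.Agent.W425.SV.RelV v θ loc B

end Pool.Agent.W425.ND
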